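import Pool.Agent.W580.SH.Final
import Pool.Agent.W212.SH.Low

/-! # MP_74dbbd_co, Q1: the refined shifted Heller constant is below the Heller constant -/

set_option autoImplicit false

namespace Pool.Agent.Results.MP_74dbbd_co.Refined

open Pool.Agent.W580.SH

/-- the numbers `n` of columns of admissible pairs `(t, A)`: `t ≠ 0` is a vector in
`[0,1)^m ∩ (1/δ ℤ)^m`, `A` has entries in `{-1,0,1}` and pairwise distinct columns, and every
square minor of `t + A` lies in `[-1,1]`. -/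
def RefinedSizes (δ m : ℕ) : Set ℕ :=
  {n | ∃ (t : Fin m → ℝ) (A : Matrix (Fin m) (Fin n) ℝ),
    (∀ i, 0 ≤ t i ∧ t i < 1) ∧ (∀ i, ∃ z : ℤ, t i = (z : ℝ) / (δ : ℝ)) ∧ t ≠ 0 ∧
    (∀ i j, A i j = -1 ∨ A i j = 0 ∨ A i j = 1) ∧ Function.Injective A.transpose ∧
    TotallyOneSubmodular (Matrix.of fun i j => t i + A i j)}

/-- the refined shifted Heller constant `h_s^δ(m)` -/
noncomputable def refinedHeller (δ m : ℕ) : ℕ := sSup (RefinedSizes δ m)

/-- the numbers `n` of columns of integer matrices `A` with `m` rows, pairwise distinct columns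
and `Δ_m(A) = 1`: the largest absolute value of an `m × m` minor is `1`. -/
def HSizes (m : ℕ) : Set ℕ :=
  {n | ∃ A : Matrix (Fin m) (Fin n) ℤ, Function.Injective A.transpose ∧
    IsGreatest {x : ℤ | ∃ s : Fin m → Fin n, x = |(A.submatrix id s).det|} 1}

theorem hsizes_eq (m : ℕ) : HSizes m = HellerSizes m := by
  ext n
  constructor
  · rintro ⟨A, hA, ⟨s, hs⟩, hu⟩
    exact ⟨A, hA, ⟨s, fun h => by rw [h] at hs; simp at hs⟩, fun s' => hu ⟨s', rfl⟩⟩
  · rintro ⟨A, hA, ⟨s, hs⟩, hu⟩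
    refine ⟨A, hA, ⟨s, ?_⟩, ?_⟩
    · have h1 := hu s
      have h2 : 0 < |(A.submatrix id s).det| := abs_pos.mpr hs
      omega
    · rintro x ⟨s', rfl⟩
      exact hu s'

theorem refined_sub (δ m : ℕ) : RefinedSizes δ m ⊆ ShiftedSizes m := by
  rintro n ⟨t, A, ht, _, h0, hA, hi, hs⟩
  exact ⟨t, A, ht, h0, hA, hi, hs⟩

theorem zero_mem (δ m : ℕ) (hδ : 2 ≤ δ) (hm : 1 ≤ m) : 0 ∈ RefinedSizes δ m := by
  have hδ0 : (0 : ℝ) < δ := by exact_mod_cast (by omega : 0 < δ)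
  have hδ1 : (1 : ℝ) < δ := by exact_mod_cast (by omega : 1 < δ)
  refine ⟨fun _ => 1 / δ, Matrix.of fun _ j => Fin.elim0 j, fun i => ⟨by positivity, ?_⟩,
    fun i => ⟨1, by norm_num⟩, ?_, fun i j => Fin.elim0 j, fun j => Fin.elim0 j, ?_⟩
  · rw [div_lt_one hδ0]; exact hδ1
  · intro h
    have := congrFun h ⟨0, hm⟩
    simp at this
    omega
  · intro k r c
    rcases Nat.eq_zero_or_pos k with h0 | hpos
    · subst h0
      simp
    · exact Fin.elim0 (c ⟨0, hpos⟩)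

/-- **Affirmative answer to Q1.** For all `m ≥ 1` and `δ ≥ 2` the maxima defining `h_s^δ(m)` and
`h(1,m)` exist, `h(1,m) = m² + m + 1`, and `h_s^δ(m) ≤ m² + m`, so that `h_s^δ(m) < h(1,m)`. -/
theorem result : ∀ m δ : ℕ, 1 ≤ m → 2 ≤ δ →
    IsGreatest (RefinedSizes δ m) (refinedHeller δ m) ∧
    IsGreatest (HSizes m) (m ^ 2 + m + 1) ∧
    refinedHeller δ m ≤ m ^ 2 + m ∧
    (∀ n ∈ RefinedSizes δ m, n < m ^ 2 + m + 1) := by
  intro m δ hm hδ
  have hb : ∀ n ∈ RefinedSizes δ m, n ≤ m ^ 2 + m :=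
    fun n hn => shifted_le m n (refined_sub δ m hn)
  have hg : IsGreatest (RefinedSizes δ m) (refinedHeller δ m) :=
    ⟨Nat.sSup_mem ⟨0, zero_mem δ m hδ hm⟩ ⟨m ^ 2 + m, hb⟩, fun n hn => le_csSup ⟨_, hb⟩ hn⟩
  refine ⟨hg, ?_, hb _ hg.1, fun n hn => Nat.lt_succ_of_le (hb n hn)⟩
  rw [hsizes_eq]
  exact greatest Pool.Agent.W212.SH.main m hm

end Pool.Agent.Results.MP_74dbbd_co.Refined
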